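import Mathlib
import Pool.Agent.Q165.Sum

/-!
# MP_45ee41_an: no uniform L² bound for the Carleson operators with phase `|t| ^ ε`, `0 < ε < 1/2`

The best constants tend to infinity as `ε → 0`.
-/

set_option autoImplicit false

open MeasureTheory Set Filter Topology Complex

namespace Pool.Agent.Results.MP_45ee41_an.NoUniformBound

open Pool.Agent.Q165.Car

/-- the truncated integral of the problem: the integral over `δ < |x - y| < 1 / δ` of
`exp (i lam |x - y| ^ ε) / (x - y) * f y` -/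
noncomputable def truncated (ε lam δ : ℝ) (f : ℝ → ℂ) (x : ℝ) : ℂ :=
  ∫ y in {y : ℝ | δ < |x - y| ∧ |x - y| < 1 / δ},
    Complex.exp (I * ((lam * |x - y| ^ ε : ℝ) : ℂ)) / ((x - y : ℝ) : ℂ) * f y

/-- `H lam x` is the principal value `H_{ε, lam} f (x)` for all `lam` and `x` -/
def IsPV (ε : ℝ) (f : ℝ → ℂ) (H : ℝ → ℝ → ℂ) : Prop :=
  ∀ lam x : ℝ, Tendsto (fun δ : ℝ => truncated ε lam δ f x) (𝓝[>] 0) (𝓝 (H lam x))

theorem main (C : ℝ) : ∃ (f : SchwartzMap ℝ ℂ) (ε₀ : ℝ), HasCompactSupport f ∧ 0 < ε₀ ∧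
      ∀ ε, 0 < ε → ε < ε₀ → ∃ H : ℝ → ℝ → ℂ, IsPV ε f H ∧
        ENNReal.ofReal (C ^ 2) * ∫⁻ x, ‖f x‖ₑ ^ 2 < ∫⁻ x, (⨆ lam, ‖H lam x‖ₑ) ^ 2 := by
  obtain ⟨K, hK0, hK⟩ := g'_bdd
  set A : ℝ := 16 * (4 + 3 * K) with hA
  have hA1 : 1 ≤ A := by rw [hA]; linarith
  have hA0 : 0 < A := by linarith
  have hCA := CA_nonneg A
  set γ₀ : ℝ := min 1 (1 / (16 * (CA A + 1))) with hγ₀
  have hγ₀pos : 0 < γ₀ := by
    rw [hγ₀]
    refine lt_min one_pos (by positivity)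
  have hγ₀1 : γ₀ ≤ 1 := min_le_left _ _
  have hγ₀2 : γ₀ ≤ 1 / (16 * (CA A + 1)) := min_le_right _ _
  obtain ⟨R₀, hR₀⟩ := exists_nat_ge (2 * A)
  obtain ⟨N, hN⟩ := exists_nat_gt (32 * Real.pi * C ^ 2 + 1)
  have hpi := Real.pi_pos
  have hN1 : (1 : ℝ) < N := by
    have : 0 ≤ 32 * Real.pi * C ^ 2 := by positivity
    linarith
  obtain ⟨R, η, hη, hR, hRm, hph⟩ := Pool.Agent.Q165.Osc.phases γ₀ hγ₀pos R₀ N
  have hR2 : ∀ j < N, 2 ≤ R j := fun j hj => (hR j hj).2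
  have hRA : ∀ j < N, 2 * A ≤ R j := fun j hj => hR₀.trans (by exact_mod_cast (hR j hj).1)
  obtain ⟨L, hL⟩ := nice_of_smooth (ff_smooth N R) (ff_supp hR2) (B := 2)
    (fun x hx => ff_zero hR2 hx)
  let f : SchwartzMap ℝ ℂ := (ff_supp hR2).toSchwartzMap (ff_smooth N R)
  have hf : ∀ x, f x = ff N R x := fun x => rfl
  have hfc : (f : ℝ → ℂ) = ff N R := rfl
  have hlim : Tendsto (fun ε => 2 * L * err 3 ε) (𝓝[>] 0) (𝓝 0) := by
    have := (err_tendsto 3 (by norm_num)).const_mul (2 * L)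
    rwa [mul_zero] at this
  have hev : ∀ᶠ ε in 𝓝[>] (0 : ℝ), 2 * L * err 3 ε < N / 4 :=
    hlim.eventually (gt_mem_nhds (by linarith))
  rw [eventually_nhdsWithin_iff, Metric.eventually_nhds_iff] at hev
  obtain ⟨ε₀, hε₀, hev⟩ := hev
  refine ⟨f, ε₀, ff_supp hR2, hε₀, fun ε hε hεε => ⟨fun lam x => Hv (ff N R) ε lam x, ?_, ?_⟩⟩
  · intro lam x
    exact hL.tendsto_trunc ε lam x
  · have herr : 2 * L * err 3 ε < N / 4 := by
      refine hev ?_ hε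
      rw [Real.dist_eq, sub_zero, abs_of_pos hε]
      exact hεε
    have herr0 : 0 ≤ err 3 ε := integral_nonneg fun _ => abs_nonneg _
    have hlow : ∀ x ∈ Icc (-(1 / 2) : ℝ) (1 / 2),
        ENNReal.ofReal (N / 4) ≤ ⨆ lam, ‖Hv (ff N R) ε lam x‖ₑ := by
      intro x hx
      have hx' : |x| ≤ 1 / 2 := abs_le.2 hx
      obtain ⟨a, ha0, haη, hk⟩ := hph fun j => (R j : ℝ) * x
      have haγ : a ≤ γ₀ := by linarith
      have hk' := hk a ⟨le_rfl, by linarith⟩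
      have hsmall : 2 * a * CA A + 2 * ((4 + 3 * K) / A) ≤ 1 / 4 := by
        have h1 : 2 * ((4 + 3 * K) / A) = 1 / 8 := by
          rw [hA]
          have : (4 + 3 * K) ≠ 0 := by positivity
          field_simp
          norm_num
        have h2 : 2 * a * CA A ≤ 1 / 8 := by
          have h3 : a ≤ 1 / (16 * (CA A + 1)) := haγ.trans hγ₀2
          rw [le_div_iff₀ (by positivity)] at h3
          nlinarith
        linarith
      have h4 := lower hK0 hK hA1 hRA hR2 ha0 (haγ.trans hγ₀1) hx' hsmall hk'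
      have h5 := hL.approx (γ := a) hε ha0 (show |x| ≤ 1 by linarith)
      have h6 : a * (2 * L) * err (2 + 1) ε ≤ N / 4 := by
        have h7 : a ≤ 1 := haγ.trans hγ₀1
        have h8 : (2 : ℝ) + 1 = 3 := by norm_num
        rw [h8]
        have h9 : 0 ≤ 2 * L * err 3 ε := by
          have := hL.nonneg
          positivity
        calc a * (2 * L) * err 3 ε = a * (2 * L * err 3 ε) := by ring
          _ ≤ 1 * (2 * L * err 3 ε) := mul_le_mul_of_nonneg_right h7 h9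
          _ ≤ N / 4 := by linarith
      have h10 : (N : ℝ) / 4 ≤ ‖Hv (ff N R) ε (a / ε) x‖ := by linarith
      refine le_trans ?_ (le_iSup (fun lam => ‖Hv (ff N R) ε lam x‖ₑ) (a / ε))
      show _ ≤ ‖Hv (ff N R) ε (a / ε) x‖ₑ
      rw [← ofReal_norm_eq_enorm]
      exact ENNReal.ofReal_le_ofReal h10
    have hupper := l2_bound hR2 hRm
    calc ENNReal.ofReal (C ^ 2) * ∫⁻ x, ‖f x‖ₑ ^ 2
        ≤ ENNReal.ofReal (C ^ 2) * ENNReal.ofReal (2 * Real.pi * N) := by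
          gcongr
          exact hupper
      _ = ENNReal.ofReal (C ^ 2 * (2 * Real.pi * N)) := (ENNReal.ofReal_mul (sq_nonneg C)).symm
      _ < ENNReal.ofReal ((N / 4) ^ 2) := by
          refine (ENNReal.ofReal_lt_ofReal_iff (by positivity)).2 ?_
          nlinarith
      _ = ∫⁻ _x in Icc (-(1 / 2) : ℝ) (1 / 2), ENNReal.ofReal (N / 4) ^ 2 := by
          rw [lintegral_const, Measure.restrict_apply_univ, Real.volume_Icc,
            ENNReal.ofReal_pow (by positivity)]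
          norm_num
      _ ≤ ∫⁻ x in Icc (-(1 / 2) : ℝ) (1 / 2), (⨆ lam, ‖Hv (ff N R) ε lam x‖ₑ) ^ 2 := by
          refine setLIntegral_mono' measurableSet_Icc fun x hx => ?_
          exact pow_le_pow_left' (hlow x hx) 2
      _ ≤ ∫⁻ x, (⨆ lam, ‖Hv (ff N R) ε lam x‖ₑ) ^ 2 := setLIntegral_le_lintegral _ _

/-- For every `C` there is a Schwartz function `f` (even smooth with compact support) such that for
all sufficiently small `ε > 0` the maximal operator `sup_lam |H_{ε, lam} f|` has `L²` norm larger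
than `C ‖f‖₂`; so there is no bound uniform in `0 < ε < 1/2`. -/
theorem result :
    (∀ C : ℝ, ∃ (f : SchwartzMap ℝ ℂ) (ε₀ : ℝ), HasCompactSupport f ∧ 0 < ε₀ ∧
      ∀ ε, 0 < ε → ε < ε₀ → ∃ H : ℝ → ℝ → ℂ, IsPV ε f H ∧
        ENNReal.ofReal (C ^ 2) * ∫⁻ x, ‖f x‖ₑ ^ 2 < ∫⁻ x, (⨆ lam, ‖H lam x‖ₑ) ^ 2) ∧
    ¬ ∃ C : ℝ, ∀ ε, 0 < ε → ε < 1 / 2 → ∀ (f : SchwartzMap ℝ ℂ) (H : ℝ → ℝ → ℂ), IsPV ε f H →
        ∫⁻ x, (⨆ lam, ‖H lam x‖ₑ) ^ 2 ≤ ENNReal.ofReal (C ^ 2) * ∫⁻ x, ‖f x‖ₑ ^ 2 := by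
  refine ⟨main, ?_⟩
  rintro ⟨C, hC⟩
  obtain ⟨f, ε₀, _, hε₀, h⟩ := main C
  have h1 : 0 < min (ε₀ / 2) (1 / 4) := lt_min (by linarith) (by norm_num)
  obtain ⟨H, hH, hlt⟩ := h (min (ε₀ / 2) (1 / 4)) h1
    ((min_le_left _ _).trans_lt (by linarith))
  exact absurd (hC _ h1 ((min_le_right _ _).trans_lt (by norm_num)) f H hH) (not_le.2 hlt)

end Pool.Agent.Results.MP_45ee41_an.NoUniformBound
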